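import Pool.Agent.Helper57_C2.Stmts

/-!
# C2_CNT: the counting lemma
-/

open scoped BigOperators

noncomputable section

namespace Pool.Agent.PP.C2.H68

/-- not constant on the coset `c` -/
def NC (ℓ q E : ℕ) (a : Fin E → ℕ → ℤ) (c : ℕ) : Prop :=
  ∃ i, ∃ s < ℓ, ∃ s' < ℓ, a i (c + q * s) ≠ a i (c + q * s')

/-- the weight of a coset -/
def Ph (ℓ q E : ℕ) (a : Fin E → ℕ → ℤ) (c : ℕ) : ℤ :=
  ∑ s ∈ Finset.range ℓ, ∑ s' ∈ Finset.range ℓ,
    (2 * ∑ i, (a i (c + q * s) - a i (c + q * s')) ^ 2 +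
      ∑ i, ∑ i', ((a i (c + q * s) - a i' (c + q * s)) - (a i (c + q * s') - a i' (c + q * s'))) ^ 2)

theorem ph_nonneg (ℓ q E : ℕ) (a : Fin E → ℕ → ℤ) (c : ℕ) : 0 ≤ Ph ℓ q E a c := by
  unfold Ph
  refine Finset.sum_nonneg fun s _ => Finset.sum_nonneg fun s' _ => ?_
  refine add_nonneg (mul_nonneg (by norm_num) (Finset.sum_nonneg fun i _ => sq_nonneg _)) ?_
  exact Finset.sum_nonneg fun i _ => Finset.sum_nonneg fun i' _ => sq_nonneg _

theorem swap4 {ι κ : Type} [Fintype ι] [Fintype κ] (S : Finset ℕ) (f : ι → ℕ → ℕ → κ → ℂ) :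
    ∑ x, ∑ s ∈ S, ∑ s' ∈ S, ∑ i, f x s s' i = ∑ i, ∑ x, ∑ s ∈ S, ∑ s' ∈ S, f x s s' i := by
  have e1 : ∀ x s, ∑ s' ∈ S, ∑ i, f x s s' i = ∑ i, ∑ s' ∈ S, f x s s' i :=
    fun x s => Finset.sum_comm
  have e2 : ∀ x, ∑ s ∈ S, ∑ i, ∑ s' ∈ S, f x s s' i = ∑ i, ∑ s ∈ S, ∑ s' ∈ S, f x s s' i :=
    fun x => Finset.sum_comm
  simp only [e1, e2]
  exact Finset.sum_comm

/-- the sum of the weights -/
theorem ph_sum (cnf : CnfStmt) (ℓ : ℕ) [Fact ℓ.Prime] (n : ℕ) (hn : 1 ≤ n) (ζ : ℂ)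
    (hζ : IsPrimitiveRoot ζ (ℓ ^ n)) (ι : Type) [Fintype ι] (E m : ℕ) (a : ι → Fin E → ℕ → ℤ)
    (A : ι → Fin E → ℕ → ℂ)
    (hA : ∀ x i j, A x i j = ∑ s ∈ Finset.range (ℓ ^ n), (a x i s : ℂ) * ζ ^ (s * j))
    (hO : ∀ j j' : ℕ, j.Coprime ℓ → j'.Coprime ℓ → j ≡ j' [MOD ℓ] → ∀ i i',
      ∑ x, A x i j * starRingEnd ℂ (A x i' j') =
        if j ≡ j' [MOD ℓ ^ n] then (ℓ : ℂ) ^ n * ((if i = i' then 1 else 0) + m) else 0)
    (k : ℕ) (hk : k < ℓ ^ (n - 1)) :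
    ∑ x, Ph ℓ (ℓ ^ (n - 1)) E (a x) k = 4 * ℓ * ((ℓ : ℤ) - 1) * (E * (E + m)) := by
  have h1 : ∀ i : Fin E, ∑ x, ∑ s ∈ Finset.range ℓ, ∑ s' ∈ Finset.range ℓ,
      ((a x i (k + ℓ ^ (n - 1) * s) : ℂ) - a x i (k + ℓ ^ (n - 1) * s')) ^ 2 =
        2 * ℓ * ((ℓ : ℂ) - 1) * (1 + m) := by
    intro i
    refine cnf ℓ n hn ζ hζ ι (fun x => a x i) (fun x => A x i) (1 + m) (fun x j => hA x i j) ?_ k hk
    intro j j' hj hj' hjj
    have := hO j j' hj hj' hjj i i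
    rw [if_pos rfl] at this
    exact this
  have h2 : ∀ i i' : Fin E, ∑ x, ∑ s ∈ Finset.range ℓ, ∑ s' ∈ Finset.range ℓ,
      (((a x i (k + ℓ ^ (n - 1) * s) - a x i' (k + ℓ ^ (n - 1) * s) : ℤ) : ℂ) -
        ((a x i (k + ℓ ^ (n - 1) * s') - a x i' (k + ℓ ^ (n - 1) * s') : ℤ) : ℂ)) ^ 2 =
        2 * ℓ * ((ℓ : ℂ) - 1) * (2 * (1 - if i = i' then 1 else 0)) := by
    intro i i'
    refine cnf ℓ n hn ζ hζ ι (fun x s => a x i s - a x i' s) (fun x j => A x i j - A x i' j)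
      (2 * (1 - if i = i' then 1 else 0)) ?_ ?_ k hk
    · intro x j
      show A x i j - A x i' j = _
      rw [hA, hA, ← Finset.sum_sub_distrib]
      refine Finset.sum_congr rfl fun s _ => ?_
      push_cast
      ring
    · intro j j' hj hj' hjj
      have e : ∀ x, (A x i j - A x i' j) * starRingEnd ℂ (A x i j' - A x i' j') =
          A x i j * starRingEnd ℂ (A x i j') - A x i j * starRingEnd ℂ (A x i' j') -
          A x i' j * starRingEnd ℂ (A x i j') + A x i' j * starRingEnd ℂ (A x i' j') := by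
        intro x
        rw [map_sub]
        ring
      simp only [e]
      rw [Finset.sum_add_distrib, Finset.sum_sub_distrib, Finset.sum_sub_distrib,
        hO j j' hj hj' hjj, hO j j' hj hj' hjj, hO j j' hj hj' hjj, hO j j' hj hj' hjj]
      have e' : (if i' = i then (1 : ℂ) else 0) = if i = i' then 1 else 0 := by
        by_cases h : i = i'
        · rw [if_pos h, if_pos h.symm]
        · rw [if_neg h, if_neg fun h' => h h'.symm]
      rw [e']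
      by_cases hq : j ≡ j' [MOD ℓ ^ n]
      · simp only [if_pos hq, if_true]
        ring
      · simp only [if_neg hq]
        ring
  have hc : ((∑ x, Ph ℓ (ℓ ^ (n - 1)) E (a x) k : ℤ) : ℂ) =
      ((4 * ℓ * ((ℓ : ℤ) - 1) * (E * (E + m)) : ℤ) : ℂ) := by
    have e1 : ((∑ x, Ph ℓ (ℓ ^ (n - 1)) E (a x) k : ℤ) : ℂ) =
        2 * ∑ i : Fin E, ∑ x, ∑ s ∈ Finset.range ℓ, ∑ s' ∈ Finset.range ℓ,
          ((a x i (k + ℓ ^ (n - 1) * s) : ℂ) - a x i (k + ℓ ^ (n - 1) * s')) ^ 2 +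
        ∑ i : Fin E, ∑ i' : Fin E, ∑ x, ∑ s ∈ Finset.range ℓ, ∑ s' ∈ Finset.range ℓ,
          (((a x i (k + ℓ ^ (n - 1) * s) - a x i' (k + ℓ ^ (n - 1) * s) : ℤ) : ℂ) -
            ((a x i (k + ℓ ^ (n - 1) * s') - a x i' (k + ℓ ^ (n - 1) * s') : ℤ) : ℂ)) ^ 2 := by
      unfold Ph
      push_cast
      simp only [Finset.sum_add_distrib, ← Finset.mul_sum]
      rw [swap4, swap4]
      congr 1
      refine Finset.sum_congr rfl fun i _ => ?_
      rw [swap4]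
    rw [e1, Finset.sum_congr rfl fun i _ => h1 i,
      Finset.sum_congr rfl fun i _ => Finset.sum_congr rfl fun i' _ => h2 i i']
    simp only [Finset.sum_const, Finset.card_univ, Fintype.card_fin, nsmul_eq_mul,
      ← Finset.mul_sum, Finset.sum_sub_distrib, Finset.sum_ite_eq, Finset.mem_univ, if_true]
    push_cast
    ring
  exact_mod_cast hc

open Classical in
/-- the number of the `x` which are not constant on a given coset -/
theorem cell_card (cnf : CnfStmt) (cnm : CnmStmt) (ℓ : ℕ) [hℓ : Fact ℓ.Prime] (n : ℕ) (hn : 1 ≤ n)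
    (ζ : ℂ) (hζ : IsPrimitiveRoot ζ (ℓ ^ n)) (ι : Type) [Fintype ι] (E m : ℕ)
    (a : ι → Fin E → ℕ → ℤ) (A : ι → Fin E → ℕ → ℂ)
    (hA : ∀ x i j, A x i j = ∑ s ∈ Finset.range (ℓ ^ n), (a x i s : ℂ) * ζ ^ (s * j))
    (hO : ∀ j j' : ℕ, j.Coprime ℓ → j'.Coprime ℓ → j ≡ j' [MOD ℓ] → ∀ i i',
      ∑ x, A x i j * starRingEnd ℂ (A x i' j') =
        if j ≡ j' [MOD ℓ ^ n] then (ℓ : ℂ) ^ n * ((if i = i' then 1 else 0) + m) else 0)
    (k : ℕ) (hk : k < ℓ ^ (n - 1)) :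
    (Finset.univ.filter fun x => NC ℓ (ℓ ^ (n - 1)) E (a x) k).card ≤ ℓ * (E + m) := by
  have hp := hℓ.out
  have h2 := hp.two_le
  have hs := ph_sum cnf ℓ n hn ζ hζ ι E m a A hA hO k hk
  rcases Nat.eq_zero_or_pos E with hE | hE
  · subst hE
    have : (Finset.univ.filter fun x => NC ℓ (ℓ ^ (n - 1)) 0 (a x) k) = ∅ := by
      refine Finset.filter_eq_empty_iff.2 fun x _ h => ?_
      obtain ⟨i, _⟩ := h
      exact Fin.elim0 i
    rw [this]
    exact Nat.zero_le _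
  · have hl : ∀ x ∈ Finset.univ.filter (fun x => NC ℓ (ℓ ^ (n - 1)) E (a x) k),
        4 * ((ℓ : ℤ) - 1) * E ≤ Ph ℓ (ℓ ^ (n - 1)) E (a x) k := by
      intro x hx
      obtain ⟨i, s, hs, s', hs', hne⟩ := (Finset.mem_filter.1 hx).2
      exact cnm ℓ E (fun i s => a x i (k + ℓ ^ (n - 1) * s)) h2 ⟨i, s, hs, s', hs', hne⟩
    have h3 : ((Finset.univ.filter fun x => NC ℓ (ℓ ^ (n - 1)) E (a x) k).card : ℤ) *
        (4 * ((ℓ : ℤ) - 1) * E) ≤ 4 * ℓ * ((ℓ : ℤ) - 1) * (E * (E + m)) := by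
      calc ((Finset.univ.filter fun x => NC ℓ (ℓ ^ (n - 1)) E (a x) k).card : ℤ) *
            (4 * ((ℓ : ℤ) - 1) * E) =
            ∑ _x ∈ Finset.univ.filter (fun x => NC ℓ (ℓ ^ (n - 1)) E (a x) k),
              (4 * ((ℓ : ℤ) - 1) * E) := by
              rw [Finset.sum_const, nsmul_eq_mul]
        _ ≤ ∑ x ∈ Finset.univ.filter (fun x => NC ℓ (ℓ ^ (n - 1)) E (a x) k),
              Ph ℓ (ℓ ^ (n - 1)) E (a x) k := Finset.sum_le_sum hl
        _ ≤ ∑ x, Ph ℓ (ℓ ^ (n - 1)) E (a x) k :=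
              Finset.sum_le_sum_of_subset_of_nonneg (Finset.filter_subset _ _)
                fun x _ _ => ph_nonneg _ _ _ _ _
        _ = _ := hs
    have h4 : (0 : ℤ) < 4 * ((ℓ : ℤ) - 1) * E := by
      have : (2 : ℤ) ≤ ℓ := by exact_mod_cast h2
      have hE' : (0 : ℤ) < E := by exact_mod_cast hE
      have : (0 : ℤ) < (ℓ : ℤ) - 1 := by linarith
      positivity
    have h5 : ((Finset.univ.filter fun x => NC ℓ (ℓ ^ (n - 1)) E (a x) k).card : ℤ) ≤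
        ℓ * (E + m) := by
      refine le_of_mul_le_mul_right ?_ h4
      refine le_trans h3 (le_of_eq ?_)
      ring
    exact_mod_cast h5

/-- if everything is constant on the cosets then the transform vanishes at `1` -/
theorem exists_nc (ℓ : ℕ) [hℓ : Fact ℓ.Prime] (n : ℕ) (hn : 1 ≤ n) (ζ : ℂ)
    (hζ : IsPrimitiveRoot ζ (ℓ ^ n)) (E : ℕ) (a : Fin E → ℕ → ℤ) (i : Fin E)
    (h : ∑ s ∈ Finset.range (ℓ ^ n), (a i s : ℂ) * ζ ^ (s * 1) ≠ 0) :
    ∃ c < ℓ ^ (n - 1), NC ℓ (ℓ ^ (n - 1)) E a c := by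
  by_contra hcon
  push Not at hcon
  apply h
  have hp := hℓ.out
  have hq : ℓ ^ n = ℓ ^ (n - 1) * ℓ := by
    rw [← pow_succ]
    congr 1
    omega
  have hz : IsPrimitiveRoot (ζ ^ (ℓ ^ (n - 1))) ℓ :=
    hζ.pow (pow_pos hp.pos n) hq
  rw [hq]
  have e1 : ∑ s ∈ Finset.range (ℓ ^ (n - 1) * ℓ), (a i s : ℂ) * ζ ^ (s * 1) =
      ∑ c ∈ Finset.range (ℓ ^ (n - 1)), ∑ t ∈ Finset.range ℓ,
        (a i (c + ℓ ^ (n - 1) * t) : ℂ) * ζ ^ (c + ℓ ^ (n - 1) * t) := by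
    rw [mul_comm (ℓ ^ (n - 1)) ℓ, Finset.sum_comm]
    rw [← Finset.sum_product']
    symm
    refine Finset.sum_bij' (fun p _ => p.2 + ℓ ^ (n - 1) * p.1)
      (fun s _ => (s / ℓ ^ (n - 1), s % ℓ ^ (n - 1))) ?_ ?_ ?_ ?_ ?_
    · rintro ⟨t, c⟩ hp'
      simp only [Finset.mem_product, Finset.mem_range] at hp' ⊢
      calc c + ℓ ^ (n - 1) * t < ℓ ^ (n - 1) + ℓ ^ (n - 1) * t := by omega
        _ = ℓ ^ (n - 1) * (t + 1) := by ring
        _ ≤ ℓ ^ (n - 1) * ℓ := Nat.mul_le_mul_left _ hp'.1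
        _ = ℓ * ℓ ^ (n - 1) := mul_comm _ _
    · intro s hs
      simp only [Finset.mem_product, Finset.mem_range] at hs ⊢
      exact ⟨Nat.div_lt_of_lt_mul (by rw [mul_comm]; exact hs), Nat.mod_lt _ (pow_pos hp.pos _)⟩
    · rintro ⟨t, c⟩ hp'
      simp only [Finset.mem_product, Finset.mem_range] at hp' ⊢
      rw [Nat.add_mul_div_left _ _ (pow_pos hp.pos _), Nat.div_eq_of_lt hp'.2, zero_add,
        Nat.add_mul_mod_self_left, Nat.mod_eq_of_lt hp'.2]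
    · intro s _
      exact Nat.mod_add_div _ _
    · rintro ⟨t, c⟩ _
      simp only [mul_one]
  rw [e1]
  refine Finset.sum_eq_zero fun c hc => ?_
  have hcc : ∀ t ∈ Finset.range ℓ, (a i (c + ℓ ^ (n - 1) * t) : ℂ) * ζ ^ (c + ℓ ^ (n - 1) * t) =
      (a i (c + ℓ ^ (n - 1) * 0) : ℂ) * ζ ^ c * (ζ ^ (ℓ ^ (n - 1))) ^ t := by
    intro t ht
    have := hcon c (Finset.mem_range.1 hc)
    unfold NC at this
    push Not at this
    rw [this i t (Finset.mem_range.1 ht) 0 hp.pos, pow_add, pow_mul]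
    ring
  rw [Finset.sum_congr rfl hcc, ← Finset.mul_sum, hz.geom_sum_eq_zero hp.one_lt, mul_zero]

/-- reindexing by multiplication -/
theorem sum_mul_mod (q α α' : ℕ) (hq : 0 < q) (h : α * α' ≡ 1 [MOD q]) (ζ : ℂ) (hζ : ζ ^ q = 1)
    (g : ℕ → ℂ) (j : ℕ) : ∑ s ∈ Finset.range q, g s * ζ ^ (s * (α * j)) =
      ∑ k ∈ Finset.range q, g ((α' * k) % q) * ζ ^ (k * j) := by
  have hz : ∀ x y : ℕ, x ≡ y [MOD q] → ζ ^ x = ζ ^ y := by
    intro x y hxy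
    rw [← Nat.div_add_mod x q, ← Nat.div_add_mod y q, pow_add, pow_add, pow_mul, pow_mul, hζ,
      one_pow, one_pow, one_mul, one_mul, hxy]
  have hinv : ∀ s < q, (α' * ((α * s) % q)) % q = s := by
    intro s hs
    have : α' * ((α * s) % q) ≡ s [MOD q] := by
      calc α' * ((α * s) % q) ≡ α' * (α * s) [MOD q] := (Nat.mod_modEq _ _).mul_left _
        _ = (α * α') * s := by ring
        _ ≡ 1 * s [MOD q] := h.mul_right _
        _ = s := one_mul _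
    rw [this, Nat.mod_eq_of_lt hs]
  have hinv' : ∀ s < q, (α * ((α' * s) % q)) % q = s := by
    intro s hs
    have : α * ((α' * s) % q) ≡ s [MOD q] := by
      calc α * ((α' * s) % q) ≡ α * (α' * s) [MOD q] := (Nat.mod_modEq _ _).mul_left _
        _ = (α * α') * s := by ring
        _ ≡ 1 * s [MOD q] := h.mul_right _
        _ = s := one_mul _
    rw [this, Nat.mod_eq_of_lt hs]
  refine Finset.sum_bij' (fun s _ => (α * s) % q) (fun s _ => (α' * s) % q) ?_ ?_ ?_ ?_ ?_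
  · intro s _; exact Finset.mem_range.2 (Nat.mod_lt _ hq)
  · intro s _; exact Finset.mem_range.2 (Nat.mod_lt _ hq)
  · intro s hs; exact hinv s (Finset.mem_range.1 hs)
  · intro s hs; exact hinv' s (Finset.mem_range.1 hs)
  · intro s hs
    rw [hinv s (Finset.mem_range.1 hs)]
    congr 1
    refine hz _ _ ?_
    calc s * (α * j) = (α * s) * j := by ring
      _ ≡ ((α * s) % q) * j [MOD q] := ((Nat.mod_modEq _ _).symm).mul_right _

/-- the cosets are permuted -/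
theorem nc_mul (cns : CnsStmt) (ℓ : ℕ) [hℓ : Fact ℓ.Prime] (n : ℕ) (hn : 1 ≤ n) (ζ : ℂ)
    (hζ : IsPrimitiveRoot ζ (ℓ ^ n)) (E : ℕ) (a : Fin E → ℕ → ℤ) (A : Fin E → ℕ → ℂ)
    (hA : ∀ i j, A i j = ∑ s ∈ Finset.range (ℓ ^ n), (a i s : ℂ) * ζ ^ (s * j))
    (α : ℕ) (hα : α.Coprime ℓ) (c : Fin E → Fin E → ℂ)
    (hc : ∀ i, ∀ j : ℕ, j.Coprime ℓ → A i (α * j) = ∑ i', c i i' * A i' j)
    (k : ℕ) (hk : k < ℓ ^ (n - 1)) (h : NC ℓ (ℓ ^ (n - 1)) E a k) :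
    NC ℓ (ℓ ^ (n - 1)) E a ((α * k) % ℓ ^ (n - 1)) := by
  have hp := hℓ.out
  have hq : ℓ ^ n = ℓ ^ (n - 1) * ℓ := by
    rw [← pow_succ]
    congr 1
    omega
  have hq0 : 0 < ℓ ^ n := pow_pos hp.pos _
  have hq1 : 0 < ℓ ^ (n - 1) := pow_pos hp.pos _
  obtain ⟨α', hα'⟩ : ∃ α', α * α' ≡ 1 [MOD ℓ ^ n] := by
    have hcop : Nat.gcd α (ℓ ^ n) = 1 := Nat.Coprime.pow_right n hα
    rcases Nat.lt_or_ge 1 (ℓ ^ n) with h1 | h1
    · obtain ⟨α', _, h2⟩ := Nat.exists_mul_mod_eq_one_of_coprime hcop h1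
      exact ⟨α', by rw [Nat.ModEq, h2, Nat.mod_eq_of_lt h1]⟩
    · have : ℓ ^ n = 1 := le_antisymm h1 hq0
      exact ⟨0, by rw [this]; exact Nat.modEq_one⟩
  by_contra hcon
  unfold NC at hcon
  push Not at hcon
  obtain ⟨i, t, ht, t', ht', hne⟩ := h
  apply hne
  obtain ⟨f, hf⟩ : ∃ f : ℕ → ℂ, f = fun x => (a i ((α' * x) % ℓ ^ n) : ℂ) -
    ∑ i', c i i' * (a i' x : ℂ) := ⟨_, rfl⟩
  have hF : ∀ j : ℕ, j.Coprime ℓ → ∑ s ∈ Finset.range (ℓ ^ n), f s * ζ ^ (s * j) = 0 := by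
    intro j hj
    have e1 := sum_mul_mod (ℓ ^ n) α α' hq0 hα' ζ hζ.pow_eq_one (fun s => (a i s : ℂ)) j
    rw [← hA i (α * j), hc i j hj] at e1
    rw [hf]
    simp only [sub_mul, Finset.sum_sub_distrib]
    rw [← e1, Finset.sum_congr rfl fun i' _ => by rw [hA i' j]]
    rw [sub_eq_zero]
    simp only [Finset.mul_sum, Finset.sum_mul]
    rw [Finset.sum_comm]
    refine Finset.sum_congr rfl fun s _ => Finset.sum_congr rfl fun i' _ => ?_
    ring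
  have key := cns ℓ n hn ζ hζ f hF ((α * k) % ℓ ^ (n - 1)) (Nat.mod_lt _ hq1)
  -- the points of the image coset
  have hpt : ∀ t < ℓ, ∃ s < ℓ, (α * k) % ℓ ^ (n - 1) + ℓ ^ (n - 1) * s =
      (α * (k + ℓ ^ (n - 1) * t)) % ℓ ^ n := by
    intro t _
    refine ⟨(α * (k + ℓ ^ (n - 1) * t)) % ℓ ^ n / ℓ ^ (n - 1), ?_, ?_⟩
    · refine Nat.div_lt_of_lt_mul ?_
      rw [← hq]
      exact Nat.mod_lt _ hq0
    · have e : (α * (k + ℓ ^ (n - 1) * t)) % ℓ ^ n % ℓ ^ (n - 1) = (α * k) % ℓ ^ (n - 1) := by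
        rw [Nat.mod_mod_of_dvd _ (by rw [hq]; exact dvd_mul_right _ _)]
        have : α * (k + ℓ ^ (n - 1) * t) = α * k + ℓ ^ (n - 1) * (α * t) := by ring
        rw [this, Nat.add_mul_mod_self_left]
      rw [← e]
      exact Nat.mod_add_div _ _
  have hback : ∀ t < ℓ, (α' * ((α * (k + ℓ ^ (n - 1) * t)) % ℓ ^ n)) % ℓ ^ n =
      k + ℓ ^ (n - 1) * t := by
    intro t ht
    have hlt : k + ℓ ^ (n - 1) * t < ℓ ^ n := by
      calc k + ℓ ^ (n - 1) * t < ℓ ^ (n - 1) + ℓ ^ (n - 1) * t := by omega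
        _ = ℓ ^ (n - 1) * (t + 1) := by ring
        _ ≤ ℓ ^ (n - 1) * ℓ := Nat.mul_le_mul_left _ ht
        _ = ℓ ^ n := hq.symm
    have : α' * ((α * (k + ℓ ^ (n - 1) * t)) % ℓ ^ n) ≡ k + ℓ ^ (n - 1) * t [MOD ℓ ^ n] := by
      calc α' * ((α * (k + ℓ ^ (n - 1) * t)) % ℓ ^ n) ≡ α' * (α * (k + ℓ ^ (n - 1) * t))
          [MOD ℓ ^ n] := (Nat.mod_modEq _ _).mul_left _
        _ = (α * α') * (k + ℓ ^ (n - 1) * t) := by ring
        _ ≡ 1 * (k + ℓ ^ (n - 1) * t) [MOD ℓ ^ n] := hα'.mul_right _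
        _ = k + ℓ ^ (n - 1) * t := one_mul _
    rw [this, Nat.mod_eq_of_lt hlt]
  obtain ⟨s, hs, es⟩ := hpt t ht
  obtain ⟨s', hs', es'⟩ := hpt t' ht'
  have k1 := key s hs s' hs'
  rw [hf] at k1
  simp only at k1
  have k2 : ∑ i', c i i' * (a i' ((α * k) % ℓ ^ (n - 1) + ℓ ^ (n - 1) * s) : ℂ) =
      ∑ i', c i i' * (a i' ((α * k) % ℓ ^ (n - 1) + ℓ ^ (n - 1) * s') : ℂ) := by
    refine Finset.sum_congr rfl fun i' _ => ?_
    rw [hcon i' s hs s' hs']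
  rw [k2, es, es', hback t ht, hback t' ht'] at k1
  have k3 := sub_left_inj.1 k1
  exact_mod_cast k3

open Classical in
theorem cnt (cnf : CnfStmt) (cnm : CnmStmt) (cns : CnsStmt) : CntStmt := by
  intro ℓ hℓ n hn ζ hζ ι _ X E m A hint hO hX R hR hRR hc
  have hp := hℓ.out
  have hn1 : 1 ≤ n := by omega
  obtain ⟨a, ha⟩ : ∃ a : ι → Fin E → ℕ → ℤ, ∀ x i j,
      A x i j = ∑ s ∈ Finset.range (ℓ ^ n), (a x i s : ℂ) * ζ ^ (s * j) := by
    choose a ha using hint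
    exact ⟨a, ha⟩
  obtain ⟨q, hq⟩ : ∃ q, q = ℓ ^ (n - 1) := ⟨_, rfl⟩
  have hq0 : 0 < q := by rw [hq]; exact pow_pos hp.pos _
  have hcell := fun k => cell_card cnf cnm ℓ n hn1 ζ hζ ι E m a A ha hO k
  rw [← hq] at hcell ⊢
  -- every `x` has enough cells
  have hx : ∀ x ∈ X, R.card ≤ (if NC ℓ q E (a x) 0 then R.card else 0) +
      ((Finset.Ico 1 q).filter fun k => NC ℓ q E (a x) k).card := by
    intro x hxX
    by_cases h0 : NC ℓ q E (a x) 0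
    · rw [if_pos h0]; exact Nat.le_add_right _ _
    rw [if_neg h0, zero_add]
    obtain ⟨i, hi⟩ := hX x hxX
    rw [ha] at hi
    obtain ⟨k, hk, hnc⟩ := exists_nc ℓ n hn1 ζ hζ E (a x) i hi
    rw [← hq] at hk hnc
    have hk0 : k ≠ 0 := by
      intro h; rw [h] at hnc; exact h0 hnc
    refine Finset.card_le_card_of_injOn (fun α => (α * k) % q) ?_ ?_
    · intro α hα
      have hα' := hR α hα
      obtain ⟨c, hcc⟩ := hc α hα
      have h1 := nc_mul cns ℓ n hn1 ζ hζ E (a x) (A x) (ha x) α hα' c (hcc x hxX) k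
        (by rw [← hq]; exact hk) (by rw [← hq]; exact hnc)
      rw [← hq] at h1
      refine Finset.mem_coe.2 (Finset.mem_filter.2 ⟨Finset.mem_Ico.2 ⟨?_, Nat.mod_lt _ hq0⟩, h1⟩)
      refine Nat.one_le_iff_ne_zero.2 fun h2 => h0 ?_
      simp only at h2
      rw [← h2]
      exact h1
    · intro α hα β hβ hαβ
      simp only at hαβ
      refine hRR α hα β hβ ?_
      by_contra hne
      have h1 : (q : ℤ) ∣ (α : ℤ) * k - β * k := by
        have h2 : α * k ≡ β * k [MOD q] := hαβ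
        have h3 := (Nat.modEq_iff_dvd.1 h2)
        have h4 := (dvd_neg (α := ℤ)).2 h3
        push_cast at h4
        rwa [neg_sub] at h4
      have h5 : IsCoprime (q : ℤ) ((α : ℤ) - β) := by
        rw [hq]
        push_cast
        refine IsCoprime.pow_left ?_
        have hpi : Prime (ℓ : ℤ) := Nat.prime_iff_prime_int.1 hp
        refine (Irreducible.coprime_iff_not_dvd hpi.irreducible).2 fun h6 => hne ?_
        refine Nat.modEq_iff_dvd.2 ?_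
        have h7 := (dvd_neg (α := ℤ)).2 h6
        rwa [neg_sub] at h7
      have h7 : (q : ℤ) ∣ k := by
        refine h5.dvd_of_dvd_mul_left ?_
        rw [sub_mul]; exact h1
      have h8 : q ∣ k := by exact_mod_cast h7
      exact absurd (Nat.le_of_dvd (Nat.pos_of_ne_zero hk0) h8) (by omega)
  -- summation
  have h1 : R.card * X.card ≤ ∑ x ∈ X, ((if NC ℓ q E (a x) 0 then R.card else 0) +
      ((Finset.Ico 1 q).filter fun k => NC ℓ q E (a x) k).card) := by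
    calc R.card * X.card = ∑ _x ∈ X, R.card := by rw [Finset.sum_const, smul_eq_mul, mul_comm]
      _ ≤ _ := Finset.sum_le_sum hx
  rw [Finset.sum_add_distrib] at h1
  have h2 : ∑ x ∈ X, (if NC ℓ q E (a x) 0 then R.card else 0) ≤ ℓ * (E + m) * R.card := by
    rw [← Finset.sum_filter, Finset.sum_const, smul_eq_mul]
    refine Nat.mul_le_mul_right _ (le_trans (Finset.card_le_card ?_) (hcell 0 hq0))
    intro x hx
    exact Finset.mem_filter.2 ⟨Finset.mem_univ _, (Finset.mem_filter.1 hx).2⟩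
  have h3 : ∑ x ∈ X, ((Finset.Ico 1 q).filter fun k => NC ℓ q E (a x) k).card ≤
      ℓ * (E + m) * (q - 1) := by
    have e : ∑ x ∈ X, ((Finset.Ico 1 q).filter fun k => NC ℓ q E (a x) k).card =
        ∑ k ∈ Finset.Ico 1 q, (X.filter fun x => NC ℓ q E (a x) k).card := by
      simp only [Finset.card_filter]
      exact Finset.sum_comm
    rw [e]
    calc ∑ k ∈ Finset.Ico 1 q, (X.filter fun x => NC ℓ q E (a x) k).card ≤
          ∑ _k ∈ Finset.Ico 1 q, ℓ * (E + m) := by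
          refine Finset.sum_le_sum fun k hk => le_trans (Finset.card_le_card ?_)
            (hcell k (Finset.mem_Ico.1 hk).2)
          intro x hx
          exact Finset.mem_filter.2 ⟨Finset.mem_univ _, (Finset.mem_filter.1 hx).2⟩
      _ = ℓ * (E + m) * (q - 1) := by
          rw [Finset.sum_const, Nat.card_Ico, smul_eq_mul, mul_comm]
  calc R.card * X.card ≤ _ := h1
    _ ≤ ℓ * (E + m) * R.card + ℓ * (E + m) * (q - 1) := Nat.add_le_add h2 h3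
    _ = _ := by ring

end Pool.Agent.PP.C2.H68
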